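import Pool.Agent.W784.RR.Final
import Pool.Agent.W583.RR_PNewton
import Pool.Agent.W880.RR.C1
import Pool.Agent.W880.RR.C3
import Pool.Agent.W880.RR.C4
import Pool.Agent.W723.RR.PCalc
import Pool.Agent.W782.RR_Inside
import Pool.Agent.W335.RR_Flat
import Pool.Agent.W782.RR_Mix
import Pool.Agent.W120.RR_testp
import Pool.Agent.W305.RR_PLin
import Pool.Agent.W363.RR.Star
import Pool.Agent.W723.RR.PH
import Pool.Agent.W120.RR_ball
import Pool.Agent.W688.RR_PA1
import Pool.Agent.W174.RR.A2
import Pool.Agent.W174.RR.A3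
import Pool.Agent.W174.RR.A4
import Pool.Agent.W305.RR_PA6
import Pool.Agent.W688.RR_PTest0
import Pool.Agent.W688.RR_PA5
import Pool.Agent.W688.RR_PMoll
import Pool.Agent.W396.RR_PDisc

set_option autoImplicit false
open MeasureTheory Set Filter Topology
open scoped ENNReal NNReal

namespace Pool.Agent.Results.MP_6cd19d_an.RieszCapacityRatios

open Pool.Agent.W784.RR

/-- The closed ball maximises `cap q / cap p` and `vol^(1/n) / cap p` over compact sets of positive
`p`-capacity, for `max 0 (n-2) ≤ p < q < n` in every dimension and for `p < 0 ≤ q < 2` in the plane;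
`cap` is the Riesz capacity of the problem, for every real exponent. -/
theorem result :
    ∀ n : ℕ, 1 ≤ n → ∀ p q : ℝ, p < q →
      ((0 ≤ p ∧ (n : ℝ) - 2 ≤ p ∧ q < (n : ℝ)) ∨ (n = 2 ∧ p < 0 ∧ 0 ≤ q ∧ q < 2)) →
      ∀ cap : ℝ → Set (EuclideanSpace ℝ (Fin n)) → ℝ,
        (∀ (s : ℝ) (K : Set (EuclideanSpace ℝ (Fin n))),
          cap s K =
            if 0 < s then
              ((⨅ (μ : MeasureTheory.Measure (EuclideanSpace ℝ (Fin n)))
                  (_ : μ Set.univ = 1 ∧ μ Kᶜ = 0),
                  ∫⁻ x, ∫⁻ y, (edist x y) ^ (-s) ∂μ ∂μ) ^ (-1 / s)).toReal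
            else if s = 0 then
              (if (⨅ (μ : MeasureTheory.Measure (EuclideanSpace ℝ (Fin n)))
                    (_ : μ Set.univ = 1 ∧ μ Kᶜ = 0),
                    ∫⁻ x, ∫⁻ y, (if x = y then (⊤ : ENNReal) else
                      ENNReal.ofReal (Real.log ((Metric.diam K + 1) / dist x y))) ∂μ ∂μ) = ⊤
                then 0
                else (Metric.diam K + 1) * Real.exp (-((⨅ (μ : MeasureTheory.Measure (EuclideanSpace ℝ (Fin n)))
                    (_ : μ Set.univ = 1 ∧ μ Kᶜ = 0),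
                    ∫⁻ x, ∫⁻ y, (if x = y then (⊤ : ENNReal) else
                      ENNReal.ofReal (Real.log ((Metric.diam K + 1) / dist x y))) ∂μ ∂μ).toReal)))
            else
              ((⨆ (μ : MeasureTheory.Measure (EuclideanSpace ℝ (Fin n)))
                  (_ : μ Set.univ = 1 ∧ μ Kᶜ = 0),
                  ∫⁻ x, ∫⁻ y, (edist x y) ^ (-s) ∂μ ∂μ) ^ (-1 / s)).toReal) →
        ∀ K : Set (EuclideanSpace ℝ (Fin n)), IsCompact K → 0 < cap p K →
          cap q K / cap p K ≤
              cap q (Metric.closedBall (0 : EuclideanSpace ℝ (Fin n)) 1) /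
                cap p (Metric.closedBall (0 : EuclideanSpace ℝ (Fin n)) 1) ∧
          (MeasureTheory.volume K).toReal ^ (1 / (n : ℝ)) / cap p K ≤
              (MeasureTheory.volume (Metric.closedBall (0 : EuclideanSpace ℝ (Fin n)) 1)).toReal ^ (1 / (n : ℝ)) /
                cap p (Metric.closedBall (0 : EuclideanSpace ℝ (Fin n)) 1) := by
  have hCalc := Pool.Agent.W723.RR.pcalc
  have hInside := Pool.Agent.W782.RR.PInside
  have hFlat := Pool.W335.RRFlat.flat hCalc hInside
  have hNewton := Pool.Agent.W583.RR.PNewton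
  have hT0 := Pool.Agent.W688.RR.ptest0 hCalc hFlat
  have hMoll := Pool.Agent.W688.RR.pmoll
  have a5 := Pool.Agent.W688.RR.pa5
  have hD := Pool.Agent.W396.RRPDisc.PDisc_proof
  have hMix := Pool.Agent.W782.RR.Mix.mix hCalc
  have hTP := Pool.Agent.W120.RRt.testP hCalc hT0 hMix
  have hLin := Pool.Agent.W305.RR.PLin hCalc hTP
  have hStar := Pool.Agent.W363.RR.pStar hCalc hLin
  have hH := Pool.Agent.W723.RR.ph hCalc
  have hBall := Pool.Agent.W120.RRb.ball hCalc hFlat hNewton
  have a1 := Pool.Agent.W688.RR.pa1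
  have a2 := Pool.Agent.W174.RR.pa2
  have a3 := Pool.Agent.W174.RR.pa3 a1 a2
  have a4 := Pool.Agent.W174.RR.pa4
  have a6 := Pool.Agent.W305.RR.PA6
  have h0 := Pool.Agent.W880.RR.pc0
  have h1 := Pool.Agent.W880.RR.pc1
  have h2 := Pool.Agent.W880.RR.pc2 hMoll
  have h3 := Pool.Agent.W880.RR.pc3
  have h4 := Pool.Agent.W880.RR.pc4
  have hVol := Pool.Agent.W880.RR.pvol hCalc hBall
  intro n hn p q hpq hreg cap hcap K hK hpos
  have hc : cap = fun s K => capF s K := by
    funext s K
    rw [hcap s K]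
    rfl
  subst hc
  exact all_cap h0 h1 h2 h3 h4 hBall hVol hCalc hStar hNewton hH a3 a4 a5 a6 hD hn hpq hreg hK hpos

end Pool.Agent.Results.MP_6cd19d_an.RieszCapacityRatios
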